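import Pool.Agent.N621.LC.PartA
import Pool.Agent.N621.LC.PartB

set_option autoImplicit false

/-!
# Borel, Baire measurable and measurable equivariant maps to subshifts of finite type

Definitions are those of `Pool/Agent/W927/Defs.lean`: `Conf d A` is the set of configurations
`ℤ^d → A`, `shift` the shift action, `FreePart d` the free part of `2^{ℤ^d}`, `IsSFT S` says that
`S` is a subshift of finite type, and `HasBorel S`, `HasBaire S`, `HasMeasure S` are the conditions
(i), (ii), (iii) of the problem.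
-/

namespace Pool.Agent.Results.MP_6540cb_lc.NoTwoEquivalent

open MeasureTheory Pool.Agent.W927 Pool.Agent.N621.LC

theorem of_borel {d k : ℕ} {S : Set (Conf d (Fin k))} (h : HasBorel S) :
    HasBaire S ∧ HasMeasure S := by
  obtain ⟨T, hT, hTm⟩ := h
  exact ⟨⟨T, hT, fun B hB => (hTm hB).baireMeasurableSet⟩,
    fun μ _ => ⟨T, hT, fun B hB => (hTm hB).nullMeasurableSet⟩⟩

theorem dim_zero {k : ℕ} (S : Set (Conf 0 (Fin k))) :
    (HasBorel S ↔ HasBaire S) ∧ (HasBorel S ↔ HasMeasure S) := by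
  have x0 : FreePart 0 := ⟨fun _ => false, fun g hg => absurd (Subsingleton.elim g 0) hg⟩
  have key : ∀ T : FreePart 0 → Conf 0 (Fin k), IsEquivMap S T → HasBorel S := by
    intro T hT
    refine ⟨fun _ => T x0, ⟨fun _ => hT.mem x0, fun g x y _ => ?_⟩, measurable_const⟩
    funext h
    unfold shift
    rw [Subsingleton.elim (h + g) h]
  refine ⟨⟨fun h => (of_borel h).1, fun ⟨T, hT, _⟩ => key T hT⟩,
    ⟨fun h => (of_borel h).2, fun h => ?_⟩⟩
  obtain ⟨T, hT, -⟩ := h (Measure.dirac x0) inferInstance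
  exact key T hT

/-- For every `d ≥ 2` no two of the conditions (i), (ii), (iii) are equivalent: there is a subshift
of finite type with (ii) and without (iii), hence without (i), and there is one with (iii) and
without (i). For `d = 0` all three conditions are equivalent. -/
theorem result :
    (∀ (k : ℕ) (S : Set (Conf 0 (Fin k))),
      (HasBorel S ↔ HasBaire S) ∧ (HasBorel S ↔ HasMeasure S)) ∧
    ∀ d : ℕ, 2 ≤ d →
      (∃ (k : ℕ) (S : Set (Conf d (Fin k))),
        IsSFT S ∧ HasBaire S ∧ ¬ HasMeasure S ∧ ¬ HasBorel S) ∧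
      (∃ (k : ℕ) (S : Set (Conf d (Fin k))), IsSFT S ∧ HasMeasure S ∧ ¬ HasBorel S) := by
  refine ⟨fun k S => dim_zero S, fun d hd => ⟨?_, ?_⟩⟩
  · have e : Fin (Fintype.card BM.Lab) ≃ BM.Lab := (Fintype.equivFin BM.Lab).symm
    exact ⟨_, SubA hd e, isSFT_SubA hd e, hasBaire_SubA hd e, not_hasMeasure_SubA hd e,
      fun h => not_hasMeasure_SubA hd e (of_borel h).2⟩
  · have e : Fin (Fintype.card (ZMod 3)) ≃ ZMod 3 := (Fintype.equivFin (ZMod 3)).symm
    exact ⟨_, SubB hd e, isSFT_SubB hd e, hasMeasure_SubB hd e, not_hasBorel_SubB hd e⟩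

end Pool.Agent.Results.MP_6540cb_lc.NoTwoEquivalent
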